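import Pool.Agent.Helper59.SL.GoalsC

/-!
# Project SL, packet EIGSPAN: eigenspaces and change of coefficients
-/

namespace Pool.Agent.Helper45.SLG.EIGSPAN

open Pool.Agent.Helper51.SigLeo Pool.Agent.Helper51.SixExp Pool.Agent.Helper17.SL
  Pool.Agent.Helper59.SL NumberField Module TensorProduct

universe u v w x y z

section

variable {F : Type u} {H : Type v} [Field F] [Field H] [Algebra F H] {A : Type w} [Field A]

/-- The eigenspace. -/
noncomputable def eigSpace (θ : (H ≃ₐ[F] H) → A) : Submodule A (A ⊗[ℤ] Additive (𝓞 H)ˣ) where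
  carrier := {x | Eig θ x}
  zero_mem' := fun γ ↦ by rw [map_zero, smul_zero]
  add_mem' := fun {a b} ha hb γ ↦ by rw [map_add, ha γ, hb γ, smul_add]
  smul_mem' := fun c x hx γ ↦ by rw [map_smul, hx γ, smul_comm]

theorem mem_eigSpace {θ : (H ≃ₐ[F] H) → A} {x : A ⊗[ℤ] Additive (𝓞 H)ˣ} :
    x ∈ eigSpace θ ↔ Eig θ x := Iff.rfl

variable [FiniteDimensional F H]

theorem eChi_add (n : ℕ) (χ : (H ≃ₐ[F] H) →* Aˣ) (y z : A ⊗[ℤ] Additive (𝓞 H)ˣ) :
    eChi n χ unitsHom (y + z) = eChi n χ unitsHom y + eChi n χ unitsHom z := by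
  have : Fintype (H ≃ₐ[F] H) := Fintype.ofFinite _
  simp only [eChi, finsum_eq_sum_of_fintype, map_add, smul_add, Finset.sum_add_distrib]

theorem eChi_smul (n : ℕ) (χ : (H ≃ₐ[F] H) →* Aˣ) (c : A) (y : A ⊗[ℤ] Additive (𝓞 H)ˣ) :
    eChi n χ unitsHom (c • y) = c • eChi n χ unitsHom y := by
  have : Fintype (H ≃ₐ[F] H) := Fintype.ofFinite _
  simp only [eChi, finsum_eq_sum_of_fintype, map_smul]
  have h : ∑ g : H ≃ₐ[F] H, ((χ g⁻¹ : Aˣ) : A) • c • extEnd (unitsHom g) y =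
      c • ∑ g : H ≃ₐ[F] H, ((χ g⁻¹ : Aˣ) : A) • extEnd (unitsHom g) y := by
    rw [Finset.smul_sum]
    exact Finset.sum_congr rfl fun g _ ↦ smul_comm ((χ g⁻¹ : Aˣ) : A) c _
  rw [h]
  exact smul_comm _ _ _

theorem eChi_zero (n : ℕ) (χ : (H ≃ₐ[F] H) →* Aˣ) :
    eChi n χ unitsHom (0 : A ⊗[ℤ] Additive (𝓞 H)ˣ) = 0 := by
  have := eChi_smul n χ 0 (0 : A ⊗[ℤ] Additive (𝓞 H)ˣ)
  rwa [zero_smul, zero_smul] at this

end

theorem thm (hBC : S_BC.{w, 0, v, 0}) : S_EIGSPAN.{u, v, w, x} := by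
  intro F H _ _ _ _ _ _ E _ _ θ ε n φ hinj
  have hfin := finite_tensor H E
  set W : Submodule E (E ⊗[ℤ] Additive (𝓞 H)ˣ) := eigSpace (fun γ : H ≃ₐ[F] H ↦ (θ γ : E)) with hW
  let bs := Module.finBasis E W
  let m : Fin (finrank E W) → E ⊗[ℤ] Additive (𝓞 H)ˣ := fun j ↦ (bs j : E ⊗[ℤ] Additive (𝓞 H)ˣ)
  have hm : LinearIndependent E m := bs.linearIndependent.map' W.subtype (Submodule.ker_subtype W)
  have hmE : ∀ j, Eig (fun γ : H ≃ₐ[F] H ↦ (θ γ : E)) (m j) := fun j ↦ (bs j).2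
  refine ⟨finrank E W, m, ?_, hm, hmE, ?_⟩
  · have hI : LinearIndependent ℂ fun j ↦ cc ε (m j) := hBC E ℂ ε _ _ m hm
    let L : (Fin (finrank E W) → ℂ) →ₗ[ℂ] (Fin n → ℂ) :=
      (LinearMap.pi fun i ↦ extHom (logC (φ i))) ∘ₗ
        (Fintype.linearCombination ℂ (fun j ↦ cc ε (m j)))
    have hL : Function.Injective L := by
      rw [← LinearMap.ker_eq_bot, LinearMap.ker_eq_bot']
      intro c hc
      have h1 : (∑ j, c j • cc ε (m j)) = 0 := by
        apply hinj
        · have : (∑ j, c j • cc ε (m j)) ∈ eigSpace (fun γ : H ≃ₐ[F] H ↦ ε (θ γ : E)) :=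
            Submodule.sum_mem _ fun j _ ↦ Submodule.smul_mem _ _ ((hmE j).cc ε)
          exact this
        · intro i
          have h2 := congrFun hc i
          simpa [L, Fintype.linearCombination_apply] using h2
      have h3 := Fintype.linearIndependent_iff.1 hI c h1
      funext j
      exact h3 j
    have h4 := LinearMap.finrank_le_finrank_of_injective hL
    simpa using h4
  · intro k _ _ f y hy
    have hy1 : eChi (finrank F H) (ch f θ) unitsHom y = y := by
      have h1 : Eig (fun γ : H ≃ₐ[F] H ↦ ((ch f θ γ : kˣ) : k)) y := hy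
      exact h1.eChi_eq
    have key : ∀ z : k ⊗[ℤ] Additive (𝓞 H)ˣ, eChi (finrank F H) (ch f θ) unitsHom z ∈
        Submodule.span k (Set.range fun j ↦ cc f (m j)) := by
      intro z
      induction z using TensorProduct.induction_on with
      | zero =>
        rw [eChi_zero]
        exact Submodule.zero_mem _
      | tmul a u =>
        have h1 : a ⊗ₜ[ℤ] u = a • cc f ((1 : E) ⊗ₜ[ℤ] u) := by
          rw [cc_tmul, map_one, TensorProduct.smul_tmul', smul_eq_mul, mul_one]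
        rw [h1, eChi_smul]
        refine Submodule.smul_mem _ _ ?_
        have h2 : eChi (finrank F H) (ch f θ) unitsHom (cc f ((1 : E) ⊗ₜ[ℤ] u)) =
            cc f (eChi (finrank F H) θ unitsHom ((1 : E) ⊗ₜ[ℤ] u)) := (cc_eChi f _ θ _ _).symm
        rw [h2]
        have h3 : eChi (finrank F H) θ unitsHom ((1 : E) ⊗ₜ[ℤ] u) ∈ W :=
          eig_eChi (finrank F H) θ ((1 : E) ⊗ₜ[ℤ] u)
        have h4 := bs.sum_repr ⟨_, h3⟩
        have h5 : eChi (finrank F H) θ unitsHom ((1 : E) ⊗ₜ[ℤ] u) =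
            ∑ j, (bs.repr ⟨_, h3⟩ j) • m j := by
          have h6 := congrArg (Submodule.subtype W) h4
          rw [map_sum] at h6
          exact h6.symm
        rw [h5, map_sum]
        refine Submodule.sum_mem _ fun j _ ↦ ?_
        rw [cc_smul]
        exact Submodule.smul_mem _ _ (Submodule.subset_span ⟨j, rfl⟩)
      | add p q hp hq =>
        rw [eChi_add]
        exact Submodule.add_mem _ hp hq
    have h7 := key y
    rw [hy1, Submodule.mem_span_range_iff_exists_fun] at h7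
    obtain ⟨c, hc⟩ := h7
    exact ⟨c, hc.symm⟩

end Pool.Agent.Helper45.SLG.EIGSPAN
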